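import Pool.Agent.R13.Gen.Baire

/-! MP_ee701d_an: if Q1 fails in dimension `n`, then for a dense set of `L²` functions the maximal
function over a relatively dense set of radii is not square integrable on any ball. -/

open MeasureTheory Complex Real Metric
open scoped ENNReal NNReal SchwartzMap FourierTransform

namespace Pool.Agent.Results.MP_ee701d_an.Dichotomy

open R13.Radii

/-- `ℝ^n`. -/
abbrev E (n : ℕ) := EuclideanSpace ℝ (Fin n)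

/-- `T_R g(x) = ∫_{|ξ|≤R} e^{2πi x·ξ} g(ξ) dξ`: the ball partial sum `S_R f` of the function `f`
whose Fourier transform is `g`. -/
noncomputable def T {n : ℕ} (g : E n → ℂ) (R : ℝ) (x : E n) : ℂ :=
  ∫ ξ in closedBall (0 : E n) R, Complex.exp (2 * π * I * (inner ℝ x ξ : ℝ)) * g ξ

/-- `S^* f(x) = sup_{R>0} |S_R f(x)|` for Schwartz `f`. -/
noncomputable def Smax {n : ℕ} (f : 𝓢(E n, ℂ)) (x : E n) : ℝ≥0∞ :=
  ⨆ R ∈ Set.Ioi (0:ℝ), ‖T (𝓕 (f : E n → ℂ)) R x‖ₑ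

/-- Q1 of the problem in dimension `n`. -/
def Q1 (n : ℕ) : Prop :=
  ∃ C : ℝ≥0, ∀ f : 𝓢(E n, ℂ), ∫⁻ x, Smax f x ^ 2 ≤ (C : ℝ≥0∞) ^ 2 * ∫⁻ x, ‖f x‖ₑ ^ 2

/-- `Λ` meets every interval `[a, a+L]`, `a ≥ 0`, for some `L`. -/
def RelDense (Λ : Set ℝ) : Prop := ∃ L : ℝ, ∀ a : ℝ, 0 ≤ a → ∃ R ∈ Λ, a ≤ R ∧ R ≤ a + L

/-- `sup_{R>0} |T_R g|` is square integrable on `ℝ^n`. -/
def MaxInL2 {n : ℕ} (g : E n → ℂ) : Prop :=
  ∫⁻ x, (⨆ R ∈ Set.Ioi (0:ℝ), ‖T g R x‖ₑ) ^ 2 < ∞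

/-- `sup_{R∈Λ} |T_R g|` is not square integrable on any ball. -/
def NowhereL2 {n : ℕ} (Λ : Set ℝ) (g : E n → ℂ) : Prop :=
  ∀ (x₀ : E n) (ρ : ℝ), 0 < ρ → ∫⁻ x in closedBall x₀ ρ, (⨆ R ∈ Λ, ‖T g R x‖ₑ) ^ 2 = ∞

/-- `NowhereL2 Λ` functions are dense in `L²(ℝ^n)`. -/
def DenseNowhereL2 (n : ℕ) (Λ : Set ℝ) : Prop :=
  ∀ g₀ : E n → ℂ, MemLp g₀ 2 volume → ∀ ε : ℝ≥0∞, 0 < ε →
    ∃ g : E n → ℂ, MemLp g 2 volume ∧ eLpNorm (g - g₀) 2 volume < ε ∧ NowhereL2 Λ g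

lemma coe_sq_of (C : ℝ≥0∞) (hC : C ≠ ∞) : ∃ D : ℝ≥0, C ≤ (D : ℝ≥0∞) ^ 2 := by
  refine ⟨1 + C.toNNReal, ?_⟩
  have h : C = (C.toNNReal : ℝ≥0∞) := (ENNReal.coe_toNNReal hC).symm
  set c := C.toNNReal with hc
  rw [h]
  norm_cast
  have h2 : (1 + c) ^ 2 = c + (1 + c + c ^ 2) := by ring
  rw [h2]
  exact le_self_add

lemma l2_of_q1 {n : ℕ} {C : ℝ≥0}
    (hC : ∀ f : 𝓢(E n, ℂ), ∫⁻ x, Smax f x ^ 2 ≤ (C : ℝ≥0∞) ^ 2 * ∫⁻ x, ‖f x‖ₑ ^ 2)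
    {g : E n → ℂ} (hg : MemLp g 2 volume) :
    ∫⁻ x, maxBall g x ^ 2 ≤ (C : ℝ≥0∞) ^ 2 * ∫⁻ ξ, ‖g ξ‖ₑ ^ 2 := by
  refine R13.Dim.extend (by simp) (fun u => ?_) hg
  set f : 𝓢(E n, ℂ) := 𝓕⁻ u with hf
  have hFf : 𝓕 f = u := FourierTransform.fourier_fourierInv_eq u
  have h1 := hC f
  have h2 : ∫⁻ x, ‖f x‖ₑ ^ 2 = ∫⁻ ξ, ‖u ξ‖ₑ ^ 2 := by
    rw [← plancherel_lintegral f, hFf]
  rw [h2] at h1
  have h3 : ∀ x, Smax f x = maxBall (u : E n → ℂ) x := by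
    intro x
    change maxBall (𝓕 (f : E n → ℂ)) x = _
    rw [← SchwartzMap.fourier_coe, hFf]
  simp_rw [h3] at h1
  exact h1

lemma q1_of_local {n : ℕ} (hn : 1 ≤ n) {r : ℕ → ℝ} {L : ℝ} (hr0 : r 0 = 0) (hr : StrictMono r)
    (hgap : ∀ k, r (k+1) - r k ≤ L) (hrt : Filter.Tendsto r Filter.atTop Filter.atTop)
    {ρ : ℝ} (hρ : 0 < ρ) {C : ℝ≥0∞} (hC : C ≠ ∞)
    (h : ∀ g : E n → ℂ, MemLp g 2 volume → R13.Gen.en r (0 : E n) ρ g ≤ C * ∫⁻ ξ, ‖g ξ‖ₑ ^ 2) :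
    Q1 n := by
  have hd : 1 ≤ Module.finrank ℝ (E n) := by simpa using hn
  set D : ℝ≥0∞ := 4 * C + 4 * (ENNReal.ofReal (24 * rexp π * shellConst (E n))
    * ENNReal.ofReal (L * ρ)) with hD
  have hDtop : D ≠ ∞ := by
    rw [hD]
    refine ENNReal.add_ne_top.2 ⟨?_, ?_⟩
    · exact ENNReal.mul_ne_top (by norm_num) hC
    · exact ENNReal.mul_ne_top (by norm_num)
        (ENNReal.mul_ne_top ENNReal.ofReal_ne_top ENNReal.ofReal_ne_top)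
  obtain ⟨D', hD'⟩ := coe_sq_of D hDtop
  refine ⟨D', fun f => ?_⟩
  refine le_trans ?_ (mul_le_mul_left hD' _)
  set g : 𝓢(E n, ℂ) := 𝓕 f with hg
  have hPl : ∫⁻ x, ‖f x‖ₑ ^ 2 = ∫⁻ ξ, ‖g ξ‖ₑ ^ 2 := (plancherel_lintegral f).symm
  rw [hPl]
  have hS : ∀ x, Smax f x = maxBall (g : E n → ℂ) x := fun x => rfl
  simp_rw [hS]
  refine global_of_dilates hρ fun t ht => ?_
  have hmem : MemLp (fun ξ => g (t⁻¹ • ξ)) 2 (volume : Measure (E n)) :=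
    memLp_comp_smul (g.memLp 2 volume) (inv_pos.2 ht)
  exact local_full hd hmem hr hr0 hgap hrt hρ (h _ hmem)

/-- **Main result.** -/
theorem result (n : ℕ) (hn : 1 ≤ n) :
    (Q1 n ∧ ∀ g : E n → ℂ, MemLp g 2 volume → MaxInL2 g) ∨
    (¬ Q1 n ∧ ∀ Λ : Set ℝ, RelDense Λ → DenseNowhereL2 n Λ) := by
  by_cases hQ : Q1 n
  · left
    refine ⟨hQ, fun g hg => ?_⟩
    obtain ⟨C, hC⟩ := hQ
    refine lt_of_le_of_lt (l2_of_q1 hC hg) ?_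
    rw [← R13.Dim.sq_int_eq]
    exact ENNReal.mul_lt_top (by simp) (ENNReal.pow_lt_top hg.eLpNorm_lt_top)
  · right
    refine ⟨hQ, fun Λ hΛ => ?_⟩
    obtain ⟨r, L, hr0, hr, hgap, hrt, hmem⟩ := exists_seq (Λ := Λ) hΛ
    have hd : 1 ≤ Module.finrank ℝ (E n) := by simpa using hn
    have hnt : Nontrivial (E n) := finrank_pos_nontrivial hd
    rcases R13.Gen.dichotomy_all (V := E n) r with h | h
    · obtain ⟨ρ, hρ, C, hC, hest⟩ := h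
      exact absurd (q1_of_local hn hr0 hr hgap hrt hρ hC hest) hQ
    · intro g₀ hg₀ ε hε
      have hfact : Fact ((1:ℝ≥0∞) ≤ 2) := ⟨by norm_num⟩
      have hdense : Dense {g : Lp ℂ 2 (volume : Measure (E n)) |
          ∀ (x₀ : E n) (ρ : ℝ), 0 < ρ → R13.Gen.en r x₀ ρ (g : E n → ℂ) = ∞} :=
        dense_of_mem_residual h
      obtain ⟨g, hgm, hg⟩ := hdense.inter_open_nonempty (Metric.eball (hg₀.toLp g₀) ε)
        Metric.isOpen_eball ⟨hg₀.toLp g₀, Metric.mem_eball_self hε⟩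
      refine ⟨(g : E n → ℂ), Lp.memLp g, ?_, ?_⟩
      · have h1 : edist g (hg₀.toLp g₀) < ε := hgm
        have h2 : edist g (hg₀.toLp g₀) = eLpNorm ((g : E n → ℂ) - g₀) 2 volume := by
          conv_lhs => rw [← Lp.toLp_coeFn g (Lp.memLp g)]
          rw [Lp.edist_toLp_toLp]
        rwa [h2] at h1
      · intro x₀ ρ hρ
        rw [← top_le_iff, ← hg x₀ ρ hρ]
        refine lintegral_mono fun x => ?_
        change (⨆ k, ‖ballInt (g : E n → ℂ) (r k) x‖ₑ) ^ 2 ≤ (⨆ R ∈ Λ, ‖T (g : E n → ℂ) R x‖ₑ) ^ 2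
        gcongr
        refine iSup_le fun k => ?_
        rcases k with _ | k
        · rw [hr0, ballInt_zero]; simp
        · exact le_iSup₂_of_le (r (k+1)) (hmem k) le_rfl

end Pool.Agent.Results.MP_ee701d_an.Dichotomy
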