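import Pool.Agent.R13.Dim.Main

/-! MP_ee701d_an: the estimate of Q1 in one dimension implies it in all lower dimensions. -/

open MeasureTheory Complex Real Metric
open scoped ENNReal NNReal SchwartzMap FourierTransform

namespace Pool.Agent.Results.MP_ee701d_an.DimensionDescent

open R13.Radii

/-- `ℝ^n`. -/
abbrev E (n : ℕ) := EuclideanSpace ℝ (Fin n)

/-- `S_R f(x) = ∫_{|ξ|≤R} e^{2πi x·ξ} f̂(ξ) dξ`, the ball partial sum. -/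
noncomputable def S {n : ℕ} (f : 𝓢(E n, ℂ)) (R : ℝ) (x : E n) : ℂ :=
  ∫ ξ in closedBall (0 : E n) R, Complex.exp (2 * π * I * (inner ℝ x ξ : ℝ)) * 𝓕 (f : E n → ℂ) ξ

/-- `S^* f(x) = sup_{R>0} |S_R f(x)|`. -/
noncomputable def Smax {n : ℕ} (f : 𝓢(E n, ℂ)) (x : E n) : ℝ≥0∞ := ⨆ R ∈ Set.Ioi (0:ℝ), ‖S f R x‖ₑ

/-- Q1 of the problem in dimension `n`. -/
def Q1 (n : ℕ) : Prop :=
  ∃ C : ℝ≥0, ∀ f : 𝓢(E n, ℂ), ∫⁻ x, Smax f x ^ 2 ≤ (C : ℝ≥0∞) ^ 2 * ∫⁻ x, ‖f x‖ₑ ^ 2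

lemma coe_sq_of (C : ℝ≥0∞) (hC : C ≠ ∞) : ∃ D : ℝ≥0, C ≤ (D : ℝ≥0∞) ^ 2 := by
  refine ⟨1 + C.toNNReal, ?_⟩
  have h : C = (C.toNNReal : ℝ≥0∞) := (ENNReal.coe_toNNReal hC).symm
  set c := C.toNNReal with hc
  rw [h]
  norm_cast
  have h2 : (1 + c) ^ 2 = c + (1 + c + c ^ 2) := by ring
  rw [h2]
  exact le_self_add

lemma l2_of_q1 {n : ℕ} {C : ℝ≥0}
    (hC : ∀ f : 𝓢(E n, ℂ), ∫⁻ x, Smax f x ^ 2 ≤ (C : ℝ≥0∞) ^ 2 * ∫⁻ x, ‖f x‖ₑ ^ 2)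
    {g : E n → ℂ} (hg : MemLp g 2 volume) :
    ∫⁻ x, maxBall g x ^ 2 ≤ (C : ℝ≥0∞) ^ 2 * ∫⁻ ξ, ‖g ξ‖ₑ ^ 2 := by
  refine R13.Dim.extend (by simp) (fun u => ?_) hg
  set f : 𝓢(E n, ℂ) := 𝓕⁻ u with hf
  have hFf : 𝓕 f = u := FourierTransform.fourier_fourierInv_eq u
  have h1 := hC f
  have h2 : ∫⁻ x, ‖f x‖ₑ ^ 2 = ∫⁻ ξ, ‖u ξ‖ₑ ^ 2 := by
    rw [← plancherel_lintegral f, hFf]
  rw [h2] at h1
  have h3 : ∀ x, Smax f x = maxBall (u : E n → ℂ) x := by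
    intro x
    change maxBall (𝓕 (f : E n → ℂ)) x = _
    rw [← SchwartzMap.fourier_coe, hFf]
  simp_rw [h3] at h1
  exact h1

theorem step {n : ℕ} (hn : 1 ≤ n) (h : Q1 (n+1)) : Q1 n := by
  obtain ⟨C, hC⟩ := h
  have hL2 : ∀ G : E (n+1) → ℂ, MemLp G 2 volume →
      ∫⁻ w, maxBall G w ^ 2 ≤ (C : ℝ≥0∞) ^ 2 * ∫⁻ w, ‖G w‖ₑ ^ 2 := fun G hG => l2_of_q1 hC hG
  obtain ⟨D, hD⟩ := coe_sq_of (256 * (C : ℝ≥0∞) ^ 2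
    + 16 * ENNReal.ofReal (216 * rexp π * shellConst (E n))) (by
      refine ENNReal.add_ne_top.2 ⟨?_, ?_⟩
      · exact ENNReal.mul_ne_top (by norm_num) (by simp)
      · exact ENNReal.mul_ne_top (by norm_num) ENNReal.ofReal_ne_top)
  refine ⟨D, fun f => ?_⟩
  refine le_trans ?_ (mul_le_mul_left hD _)
  set g : 𝓢(E n, ℂ) := 𝓕 f with hg
  have hPl : ∫⁻ x, ‖f x‖ₑ ^ 2 = ∫⁻ ξ, ‖g ξ‖ₑ ^ 2 := (plancherel_lintegral f).symm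
  rw [hPl]
  have hS : ∀ x, Smax f x = maxBall (g : E n → ℂ) x := fun x => rfl
  simp_rw [hS]
  exact R13.Dim.descent hn hL2 (g.memLp 2 volume)

/-- **Main result.** -/
theorem result (m n : ℕ) (hm : 1 ≤ m) (hmn : m ≤ n) : Q1 n → Q1 m := by
  obtain ⟨k, rfl⟩ := Nat.exists_eq_add_of_le hmn
  induction k with
  | zero => exact fun h => h
  | succ k ih => exact fun h => ih (by omega) (step (by omega) h)

end Pool.Agent.Results.MP_ee701d_an.DimensionDescent
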