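import Pool.Agent.R13.Shells.Rand

/-! MP_ee701d_an: the maximal estimate in mean square for random signs on spherical shells. -/

open MeasureTheory Complex Real Metric ProbabilityTheory
open scoped ENNReal NNReal

namespace Pool.Agent.Results.MP_ee701d_an.RandomShellSigns

/-- `ℝ^n`. -/
abbrev E (n : ℕ) := EuclideanSpace ℝ (Fin n)

/-- `T_R g(x) = ∫_{|ξ|≤R} e^{2πi x·ξ} g(ξ) dξ`: the ball partial sum `S_R f` of the function `f`
whose Fourier transform is `g`. -/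
noncomputable def T {n : ℕ} (g : E n → ℂ) (R : ℝ) (x : E n) : ℂ :=
  ∫ ξ in closedBall (0 : E n) R, Complex.exp (2 * π * I * (inner ℝ x ξ : ℝ)) * g ξ

/-- `true ↦ 1`, `false ↦ -1`. -/
noncomputable def sign (b : Bool) : ℂ := if b then 1 else -1

/-- `g` multiplied by the sign `e m` on the shell `L m < |ξ| ≤ L (m+1)`, `m = 0, 1, 2, …`. -/
noncomputable def shellSigns {n : ℕ} (L : ℝ) (e : ℕ → Bool) (g : E n → ℂ) (ξ : E n) : ℂ :=
  sign (e (⌈‖ξ‖ / L⌉₊ - 1)) * g ξ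

/-- Independent symmetric signs. -/
structure IsSigns {Ω : Type} [MeasurableSpace Ω] (ε : ℕ → Ω → Bool) (P : Measure Ω) : Prop where
  meas : ∀ m, Measurable (ε m)
  indep : iIndepFun ε P
  half : ∀ m b, P {ω | ε m ω = b} = 1 / 2

/-- **Main result.** -/
theorem result (n : ℕ) (hn : 1 ≤ n) :
    ∃ C : ℝ≥0, ∀ (Ω : Type) [MeasurableSpace Ω] (P : Measure Ω) [IsProbabilityMeasure P]
      (ε : ℕ → Ω → Bool), IsSigns ε P →
      ∀ L ρ : ℝ, 0 < L → 0 < ρ → ∀ g : E n → ℂ, MemLp g 2 volume →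
        ∫⁻ ω, (∫⁻ x in closedBall (0 : E n) ρ,
          (⨆ R ∈ Set.Ioi (0:ℝ), ‖T (shellSigns L (fun m => ε m ω) g) R x‖ₑ) ^ 2) ∂P
        ≤ C * ENNReal.ofReal (L * ρ) * ∫⁻ ξ, ‖g ξ‖ₑ ^ 2 := by
  have hd : 1 ≤ Module.finrank ℝ (E n) := by simpa using hn
  refine ⟨(192 * rexp π * R13.Radii.shellConst (E n)).toNNReal, ?_⟩
  intro Ω _ P _ ε hε L ρ hL hρ g hg
  have h : R13.Shells.IsSigns ε P := ⟨hε.meas, hε.indep, hε.half⟩
  exact R13.Shells.random_shells hd hL hρ hg h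

end Pool.Agent.Results.MP_ee701d_an.RandomShellSigns
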