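import Pool.Agent.R13.Radii.Dense

/-! MP_ee701d_an: the supremum over all radii may be replaced, locally, by the supremum over any
relatively dense set of radii. -/

open MeasureTheory Complex Real Metric
open scoped ENNReal NNReal SchwartzMap FourierTransform

namespace Pool.Agent.Results.MP_ee701d_an.RelativelyDenseRadii

open R13.Radii

/-- `ℝ^n`. -/
abbrev E (n : ℕ) := EuclideanSpace ℝ (Fin n)

/-- `S_R f(x) = ∫_{|ξ|≤R} e^{2πi x·ξ} f̂(ξ) dξ`, the ball partial sum. -/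
noncomputable def S {n : ℕ} (f : 𝓢(E n, ℂ)) (R : ℝ) (x : E n) : ℂ :=
  ∫ ξ in closedBall (0 : E n) R, Complex.exp (2 * π * I * (inner ℝ x ξ : ℝ)) * 𝓕 (f : E n → ℂ) ξ

/-- `S^* f(x) = sup_{R>0} |S_R f(x)|`. -/
noncomputable def Smax {n : ℕ} (f : 𝓢(E n, ℂ)) (x : E n) : ℝ≥0∞ := ⨆ R ∈ Set.Ioi (0:ℝ), ‖S f R x‖ₑ

/-- Q1 of the problem in dimension `n`. -/
def Q1 (n : ℕ) : Prop :=
  ∃ C : ℝ≥0, ∀ f : 𝓢(E n, ℂ), ∫⁻ x, Smax f x ^ 2 ≤ (C : ℝ≥0∞) ^ 2 * ∫⁻ x, ‖f x‖ₑ ^ 2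

/-- `Λ` meets every interval `[a, a+L]`, `a ≥ 0`, for some `L`. -/
def RelDense (Λ : Set ℝ) : Prop := ∃ L : ℝ, ∀ a : ℝ, 0 ≤ a → ∃ R ∈ Λ, a ≤ R ∧ R ≤ a + L

/-- The local maximal estimate over the radii in `Λ` on the ball of radius `ρ`. -/
def LocalEstimate (n : ℕ) (Λ : Set ℝ) (ρ : ℝ) : Prop :=
  ∃ C : ℝ≥0, ∀ f : 𝓢(E n, ℂ),
    ∫⁻ x in closedBall (0 : E n) ρ, (⨆ R ∈ Λ, ‖S f R x‖ₑ) ^ 2 ≤ (C : ℝ≥0∞) ^ 2 * ∫⁻ x, ‖f x‖ₑ ^ 2

lemma S_eq {n : ℕ} (f : 𝓢(E n, ℂ)) (R : ℝ) (x : E n) :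
    S f R x = ballInt (𝓕 (f : E n → ℂ)) R x := rfl

lemma finrank_E {n : ℕ} (hn : 1 ≤ n) : 1 ≤ Module.finrank ℝ (E n) := by simpa using hn

lemma coe_sq_of (C : ℝ≥0∞) (hC : C ≠ ∞) : ∃ D : ℝ≥0, C ≤ (D : ℝ≥0∞) ^ 2 := by
  refine ⟨1 + C.toNNReal, ?_⟩
  have h : C = (C.toNNReal : ℝ≥0∞) := (ENNReal.coe_toNNReal hC).symm
  set c := C.toNNReal with hc
  rw [h]
  norm_cast
  have h2 : (1 + c) ^ 2 = c + (1 + c + c ^ 2) := by ring
  rw [h2]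
  exact le_self_add

lemma S_nonpos {n : ℕ} (hn : 1 ≤ n) (f : 𝓢(E n, ℂ)) {R : ℝ} (hR : R ≤ 0) (x : E n) : S f R x = 0 := by
  rcases hR.lt_or_eq with h | h
  · unfold S
    rw [closedBall_eq_empty.2 h]
    simp
  · have : Nontrivial (E n) := finrank_pos_nontrivial (finrank_E hn)
    rw [h]
    exact ballInt_zero _ x

theorem q1_iff {n : ℕ} (hn : 1 ≤ n) {Λ : Set ℝ} (hΛ : RelDense Λ) {ρ : ℝ} (hρ : 0 < ρ) :
    Q1 n ↔ LocalEstimate n Λ ρ := by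
  have hd := finrank_E hn
  constructor
  · rintro ⟨C, hC⟩
    refine ⟨C, fun f => ?_⟩
    refine le_trans ?_ (hC f)
    refine le_trans (lintegral_mono fun x => ?_) (setLIntegral_le_lintegral _ _)
    change (⨆ R ∈ Λ, ‖S f R x‖ₑ) ^ 2 ≤ Smax f x ^ 2
    gcongr
    refine iSup₂_le fun R _ => ?_
    rcases le_or_gt R 0 with h | h
    · rw [S_nonpos hn f h]; simp
    · exact le_iSup₂_of_le R h le_rfl
  · rintro ⟨C, hC⟩
    obtain ⟨r, L, hr0, hr, hgap, hrt, hmem⟩ := exists_seq (Λ := Λ) hΛ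
    set D : ℝ≥0∞ := 4 * (C : ℝ≥0∞) ^ 2 + 4 * (ENNReal.ofReal (24 * rexp π * shellConst (E n))
      * ENNReal.ofReal (L * ρ)) with hD
    have hDtop : D ≠ ∞ := by
      rw [hD]
      refine ENNReal.add_ne_top.2 ⟨?_, ?_⟩
      · exact ENNReal.mul_ne_top (by norm_num) (by simp)
      · exact ENNReal.mul_ne_top (by norm_num)
          (ENNReal.mul_ne_top ENNReal.ofReal_ne_top ENNReal.ofReal_ne_top)
    obtain ⟨D', hD'⟩ := coe_sq_of D hDtop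
    refine ⟨D', fun f => ?_⟩
    refine le_trans ?_ (mul_le_mul_left hD' _)
    set g : 𝓢(E n, ℂ) := 𝓕 f with hg
    have hPl : ∫⁻ x, ‖f x‖ₑ ^ 2 = ∫⁻ ξ, ‖g ξ‖ₑ ^ 2 := (plancherel_lintegral f).symm
    rw [hPl]
    have hS : ∀ x, Smax f x = maxBall (g : E n → ℂ) x := fun x => rfl
    simp_rw [hS]
    refine global_of_dilates hρ fun t ht => ?_
    -- the dilated Schwartz function
    set gt : 𝓢(E n, ℂ) := dil t ht g with hgt
    set ft : 𝓢(E n, ℂ) := 𝓕⁻ gt with hft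
    have hFft : 𝓕 ft = gt := FourierTransform.fourier_fourierInv_eq gt
    have hcoe : (fun ξ => g (t⁻¹ • ξ)) = (gt : E n → ℂ) := by
      funext ξ; rw [hgt, dil_apply]
    have hmem2 : MemLp (gt : E n → ℂ) 2 (volume : Measure (E n)) := gt.memLp 2 volume
    have h1 : ∫⁻ x in closedBall (0 : E n) ρ, (⨆ k, ‖ballInt (gt : E n → ℂ) (r k) x‖ₑ) ^ 2
        ≤ (C : ℝ≥0∞) ^ 2 * ∫⁻ ξ, ‖gt ξ‖ₑ ^ 2 := by
      have h2 := hC ft
      have h3 : ∫⁻ x, ‖ft x‖ₑ ^ 2 = ∫⁻ ξ, ‖gt ξ‖ₑ ^ 2 := by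
        rw [← plancherel_lintegral ft, hFft]
      rw [h3] at h2
      refine le_trans (lintegral_mono fun x => ?_) h2
      change (⨆ k, ‖ballInt (gt : E n → ℂ) (r k) x‖ₑ) ^ 2 ≤ (⨆ R ∈ Λ, ‖S ft R x‖ₑ) ^ 2
      have hSft : ∀ R, S ft R x = ballInt (gt : E n → ℂ) R x := by
        intro R
        change ballInt (𝓕 (ft : E n → ℂ)) R x = _
        rw [← SchwartzMap.fourier_coe, hFft]
      gcongr
      refine iSup_le fun k => ?_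
      rcases k with _ | k
      · have : Nontrivial (E n) := finrank_pos_nontrivial hd
        rw [hr0, ballInt_zero]; simp
      · rw [← hSft]
        exact le_iSup₂_of_le (r (k+1)) (hmem k) le_rfl
    have h4 := local_full hd hmem2 hr hr0 hgap hrt hρ h1
    simp only [hcoe]
    have h5 : ∫⁻ ξ, ‖g (t⁻¹ • ξ)‖ₑ ^ 2 = ∫⁻ ξ, ‖gt ξ‖ₑ ^ 2 := by
      simp only [hgt, dil_apply]
    rw [h5]
    exact h4

/-- **Main result.** Q1 in dimension `n` is equivalent to the local maximal estimate over the radii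
of any single relatively dense set `Λ`, on a ball of any radius `ρ`. -/
theorem result (n : ℕ) (hn : 1 ≤ n) (Λ : Set ℝ) (hΛ : RelDense Λ) (ρ : ℝ) (hρ : 0 < ρ) :
    Q1 n ↔ LocalEstimate n Λ ρ :=
  q1_iff hn hΛ hρ

end Pool.Agent.Results.MP_ee701d_an.RelativelyDenseRadii
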